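import Pool.Agent.helper51.RMX.Spec

/-!
# Row rmx:CEX (the coefficients, mixed degree)
-/

set_option autoImplicit false
set_option linter.unusedSectionVars false

namespace Pool.Agent.RMX

open Pool.Agent.RB NumberField IsDedekindDomain Module
open scoped nonZeroDivisors Real Classical IsMulCommutative

section

variable {G : Type} [CommGroup G] [Finite G]

theorem CEX_ev_single (χ : G →* ℂˣ) (g : G) (r : ℚ) :
    evQ χ (MonoidAlgebra.single g r) = (r : ℂ) * (χ g : ℂ) := by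
  change MonoidAlgebra.lift ℚ ℂ G ((Units.coeHom ℂ).comp χ) (MonoidAlgebra.single g r) = _
  rw [MonoidAlgebra.lift_single, Algebra.smul_def]
  rfl

/-- the elements killed by `l` -/
def CEX_O (G : Type) [CommGroup G] (l : ℕ) : Subgroup G := (powMonoidHom l : G →* G).ker

theorem CEX_mem (l : ℕ) (g : G) : g ∈ CEX_O G l ↔ g ^ l = 1 := MonoidHom.mem_ker

theorem CEX_card {m l : ℕ} (hG : Nat.card G = 2 ^ m * l) (hl : Odd l) :
    Nat.card (CEX_O G l) = l ∧ Nat.card (G ⧸ CEX_O G l) = 2 ^ m := by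
  have : Fact (Nat.Prime 2) := ⟨Nat.prime_two⟩
  have h1 : ¬ 2 ∣ Nat.card (CEX_O G l) := by
    intro h2
    obtain ⟨x, hx⟩ := exists_prime_orderOf_dvd_card' 2 h2
    have h3 : x ^ l = 1 := Subtype.ext ((CEX_mem l (x : G)).mp x.2)
    have h4 := orderOf_dvd_of_pow_eq_one h3
    rw [hx] at h4
    exact (Nat.not_even_iff_odd.mpr hl) (even_iff_two_dvd.mpr h4)
  have h2 : IsPGroup 2 (G ⧸ CEX_O G l) := by
    intro x
    obtain ⟨g, rfl⟩ := QuotientGroup.mk_surjective x
    refine ⟨m, ?_⟩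
    rw [← QuotientGroup.mk_pow, QuotientGroup.eq_one_iff, CEX_mem, ← pow_mul, ← hG]
    exact pow_card_eq_one'
  obtain ⟨j, hj⟩ := IsPGroup.iff_card.mp h2
  have h3 : 2 ^ m * l = 2 ^ j * Nat.card (CEX_O G l) := by
    rw [← hG, ← hj]
    exact Subgroup.card_eq_card_quotient_mul_card_subgroup _
  have c1 : Nat.Coprime (2 ^ m) (Nat.card (CEX_O G l)) :=
    Nat.Coprime.pow_left _ ((Nat.Prime.coprime_iff_not_dvd Nat.prime_two).mpr h1)
  have c2 : Nat.Coprime (2 ^ j) l :=
    Nat.Coprime.pow_left _ ((Nat.coprime_two_left).mpr hl)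
  have d1 : 2 ^ m ∣ 2 ^ j := c1.dvd_of_dvd_mul_right (h3 ▸ Dvd.intro _ rfl)
  have d2 : 2 ^ j ∣ 2 ^ m := c2.dvd_of_dvd_mul_right (h3 ▸ Dvd.intro _ rfl)
  have e1 : 2 ^ m = 2 ^ j := Nat.dvd_antisymm d1 d2
  rw [e1] at h3
  exact ⟨(Nat.eq_of_mul_eq_mul_left (by positivity) h3).symm, by rw [hj, e1]⟩

theorem CEX_triv {l i : ℕ} (hl : Odd l) (χ : G →* ℂˣ) (h : χ ^ 2 ^ i = 1) (τ : G)
    (hτ : τ ∈ CEX_O G l) : χ τ = 1 := by
  have h1 : (χ τ) ^ l = 1 := by rw [← map_pow, (CEX_mem l τ).mp hτ, map_one]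
  have h2 : (χ τ) ^ 2 ^ i = 1 := by
    rw [← MonoidHom.pow_apply, h, MonoidHom.one_apply]
  have h3 : Nat.Coprime l (2 ^ i) := Nat.Coprime.pow_right _ (Nat.coprime_two_right.mpr hl)
  have h4 : orderOf (χ τ) ∣ 1 := by
    rw [← h3]
    exact Nat.dvd_gcd (orderOf_dvd_of_pow_eq_one h1) (orderOf_dvd_of_pow_eq_one h2)
  exact orderOf_eq_one_iff.mp (Nat.dvd_one.mp h4)

theorem CEX_two {m l : ℕ} (hG : Nat.card G = 2 ^ m * l) (χ : G →* ℂˣ)
    (h : ∀ τ ∈ CEX_O G l, χ τ = 1) : χ ^ 2 ^ m = 1 := by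
  ext g
  rw [MonoidHom.pow_apply, ← map_pow, h, MonoidHom.one_apply]
  rw [CEX_mem, ← pow_mul, ← hG]
  exact pow_card_eq_one'

/-- the sum of the elements of a subgroup -/
noncomputable def CEX_T (O : Subgroup G) : MonoidAlgebra ℚ G :=
  ∑ᶠ τ : O, MonoidAlgebra.single (τ : G) (1 : ℚ)

theorem CEX_T_eq (O : Subgroup G) [Fintype O] :
    CEX_T O = ∑ τ : O, MonoidAlgebra.single (τ : G) (1 : ℚ) :=
  finsum_eq_sum_of_fintype _

theorem CEX_T_triv (O : Subgroup G) (χ : G →* ℂˣ) (h : ∀ τ ∈ O, χ τ = 1) :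
    evQ χ (CEX_T O) = (Nat.card O : ℂ) := by
  have := Fintype.ofFinite O
  rw [CEX_T_eq, map_sum]
  have e1 : ∀ τ : O, evQ χ (MonoidAlgebra.single (τ : G) (1 : ℚ)) = 1 := by
    intro τ
    rw [CEX_ev_single, h τ τ.2]
    simp
  rw [Finset.sum_congr rfl fun τ _ => e1 τ]
  simp

theorem CEX_T_non (O : Subgroup G) (χ : G →* ℂˣ) (τ₀ : G) (h0 : τ₀ ∈ O) (h1 : χ τ₀ ≠ 1) :
    evQ χ (CEX_T O) = 0 := by
  have := Fintype.ofFinite O
  have e1 : evQ χ (CEX_T O) = ∑ τ : O, ((χ (τ : G) : ℂˣ) : ℂ) := by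
    rw [CEX_T_eq, map_sum]
    refine Finset.sum_congr rfl fun τ _ => ?_
    rw [CEX_ev_single]
    simp
  have e2 : ((χ τ₀ : ℂˣ) : ℂ) * evQ χ (CEX_T O) = evQ χ (CEX_T O) := by
    rw [e1, Finset.mul_sum]
    refine Fintype.sum_equiv (Equiv.mulLeft (⟨τ₀, h0⟩ : O)) _ _ fun τ => ?_
    simp
  have e3 : (((χ τ₀ : ℂˣ) : ℂ) - 1) * evQ χ (CEX_T O) = 0 := by
    rw [sub_mul, e2, one_mul, sub_self]
  rcases mul_eq_zero.mp e3 with h | h
  · exact absurd (Units.ext (sub_eq_zero.mp h)) h1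
  · exact h

theorem CEX_T_coeff (O : Subgroup G) (y : MonoidAlgebra ℚ G) (σ : G) :
    (CEX_T O * y).coeff σ =
      (MonoidAlgebra.mapDomainRingHom ℚ (QuotientGroup.mk' O) y).coeff (QuotientGroup.mk' O σ) := by
  have := Fintype.ofFinite O
  induction y using MonoidAlgebra.induction_linear with
  | zero => simp
  | add x y hx hy => rw [mul_add, map_add, MonoidAlgebra.coeff_add, MonoidAlgebra.coeff_add,
      Finsupp.add_apply, Finsupp.add_apply, hx, hy]
  | single g r =>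
    rw [CEX_T_eq, Finset.sum_mul, MonoidAlgebra.coeff_sum, Finsupp.finsetSum_apply]
    have e1 : ∀ τ : O, ((MonoidAlgebra.single (τ : G) (1 : ℚ) * MonoidAlgebra.single g r).coeff σ)
        = if (τ : G) * g = σ then r else 0 := by
      intro τ
      rw [MonoidAlgebra.single_mul_single, one_mul, MonoidAlgebra.coeff_single,
        Finsupp.single_apply]
    rw [Finset.sum_congr rfl fun τ _ => e1 τ]
    have e2 : (MonoidAlgebra.mapDomainRingHom ℚ (QuotientGroup.mk' O) (MonoidAlgebra.single g r))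
        = MonoidAlgebra.single (QuotientGroup.mk' O g) r := by
      exact MonoidAlgebra.mapDomain_single
    rw [e2, MonoidAlgebra.coeff_single, Finsupp.single_apply]
    by_cases hg : σ * g⁻¹ ∈ O
    · rw [if_pos, Finset.sum_eq_single (⟨σ * g⁻¹, hg⟩ : O)]
      · rw [if_pos (by simp)]
      · intro b _ hb
        refine if_neg fun h => hb (Subtype.ext ?_)
        exact eq_mul_inv_of_mul_eq h
      · intro h
        exact absurd (Finset.mem_univ _) h
      · rw [QuotientGroup.mk'_apply, QuotientGroup.mk'_apply, QuotientGroup.eq, mul_comm]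
        exact hg
    · rw [if_neg, Finset.sum_eq_zero]
      · intro τ _
        refine if_neg fun h => hg ?_
        rw [← h, mul_inv_cancel_right]
        exact τ.2
      · intro h
        rw [QuotientGroup.mk'_apply, QuotientGroup.mk'_apply, QuotientGroup.eq, mul_comm] at h
        exact hg h

theorem CEX_ev_map (O : Subgroup G) (χ : G ⧸ O →* ℂˣ) (y : MonoidAlgebra ℚ G) :
    evQ χ (MonoidAlgebra.mapDomainRingHom ℚ (QuotientGroup.mk' O) y) =
      evQ (χ.comp (QuotientGroup.mk' O)) y := by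
  induction y using MonoidAlgebra.induction_linear with
  | zero => simp
  | add x y hx hy => rw [map_add, map_add, map_add, hx, hy]
  | single g r =>
    have e2 : (MonoidAlgebra.mapDomainRingHom ℚ (QuotientGroup.mk' O) (MonoidAlgebra.single g r))
        = MonoidAlgebra.single (QuotientGroup.mk' O g) r := by
      exact MonoidAlgebra.mapDomain_single
    rw [e2, CEX_ev_single, CEX_ev_single]
    rfl

theorem CEX_Psi (O : Subgroup G) (χ : G ⧸ O →* ℂˣ) (c : G) :
    (Psi (χ.comp (QuotientGroup.mk' O)).ker c).card = (Psi χ.ker (QuotientGroup.mk' O c)).card := by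
  symm
  refine Finset.card_bij (fun ψ _ => ψ.comp (QuotientGroup.mk' O)) ?_ ?_ ?_
  · intro ψ hψ
    simp only [Psi, Finset.mem_filter, Finset.mem_univ, true_and] at hψ ⊢
    refine ⟨fun b hb => ?_, hψ.2⟩
    exact hψ.1 (QuotientGroup.mk' O b) hb
  · intro ψ _ ψ' _ h
    ext x
    have h1 := DFunLike.congr_fun h x
    exact congrArg (fun t : ℂˣ => (t : ℂ)) h1
  · intro ψ hψ
    simp only [Psi, Finset.mem_filter, Finset.mem_univ, true_and] at hψ
    have hO : O ≤ ψ.ker := by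
      intro x hx
      refine hψ.1 x ?_
      rw [MonoidHom.mem_ker, MonoidHom.comp_apply, QuotientGroup.mk'_apply,
        (QuotientGroup.eq_one_iff x).mpr hx, map_one]
    refine ⟨QuotientGroup.lift O ψ hO, ?_, ?_⟩
    · simp only [Psi, Finset.mem_filter, Finset.mem_univ, true_and]
      constructor
      · intro b hb
        obtain ⟨g, rfl⟩ := QuotientGroup.mk_surjective b
        rw [QuotientGroup.lift_mk]
        exact hψ.1 g hb
      · rw [QuotientGroup.mk'_apply, QuotientGroup.lift_mk]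
        exact hψ.2
    · ext x
      rfl

end

/-- ROW rmx:CEX -/
theorem CEX (hCOX : COX_stmt) : CEX_stmt := by
  intro G _ _ m l h a g₀ c hG hl ha hc hc1 hcc y n s k hy hχ1 hχ2 hs0 hs1 hl1
  -- odd part of an exponent
  have hu : ∀ g : G, (g ^ 2 ^ a) ^ l = 1 := by
    intro g
    obtain ⟨e, he, hge⟩ := ha g
    have h1 : orderOf (g ^ 2 ^ a) ∣ e := by
      apply orderOf_dvd_of_pow_eq_one
      rw [← pow_mul]
      exact hge
    have h2 : orderOf (g ^ 2 ^ a) ∣ 2 ^ m * l := by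
      rw [← hG]
      exact orderOf_dvd_natCard _
    have h3 : Nat.Coprime (orderOf (g ^ 2 ^ a)) (2 ^ m) :=
      Nat.Coprime.coprime_dvd_left h1 (Nat.Coprime.pow_right _ (Nat.coprime_two_right.mpr he))
    exact orderOf_dvd_iff_pow_eq_one.mp (h3.dvd_of_dvd_mul_left h2)
  rcases eq_or_ne l 1 with hl' | hl'
  · subst hl'
    rw [mul_one] at hG
    refine fin_ce2 G m h a g₀ c hG (fun g => ?_) hc hc1 hcc y n s k hy (fun χ hχ => ?_) hs0 hs1
    · have h1 := hu g
      rwa [pow_one] at h1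
    · refine hχ1 χ hχ ⟨m, ?_⟩
      ext g
      rw [MonoidHom.pow_apply, ← map_pow, ← hG, pow_card_eq_one', map_one, MonoidHom.one_apply]
  · obtain ⟨cO, cQ⟩ := CEX_card hG hl
    have hl0 : (l : ℚ) ≠ 0 := by
      have := hl.pos
      positivity
    set O := CEX_O G l with hO
    set pq := QuotientGroup.mk' O with hpq
    set yb := MonoidAlgebra.mapDomainRingHom ℚ pq y with hyb
    have hccl : c ^ l = c := by
      obtain ⟨j, hj⟩ := hl
      rw [hj, pow_succ, pow_mul, pow_two, hcc, one_pow, one_mul]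
    -- the quotient
    obtain ⟨d₁, hd₁, hz₁⟩ := fin_ce2 (G ⧸ O) m h a (pq g₀) (pq c) cQ (fun x => by
        obtain ⟨g, rfl⟩ := QuotientGroup.mk_surjective x
        rw [← QuotientGroup.mk_pow, QuotientGroup.eq_one_iff]
        exact (CEX_mem l _).mpr (hu g)) (by rw [hc, map_pow]) (fun h1 => by
        have h2 : c ∈ O := (QuotientGroup.eq_one_iff c).mp h1
        have h3 := (CEX_mem l c).mp h2
        rw [hccl] at h3
        exact hc1 h3) (by rw [← map_mul, hcc, map_one]) yb n s k (by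
        have h1 := congrArg (MonoidAlgebra.mapDomainRingHom ℚ pq) hy
        rw [map_mul, map_neg] at h1
        have e2 : (MonoidAlgebra.mapDomainRingHom ℚ pq (MonoidAlgebra.single c (1 : ℚ)))
            = MonoidAlgebra.single (pq c) 1 := MonoidAlgebra.mapDomain_single
        rw [e2] at h1
        exact h1) (fun χ hχ => by
        have e1 : evQ χ yb = evQ (χ.comp pq) y := CEX_ev_map O χ y
        have e2 := CEX_Psi O χ c
        rw [e1, ← e2]
        refine hχ1 (χ.comp pq) hχ ⟨m, CEX_two hG _ fun τ hτ => ?_⟩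
        rw [MonoidHom.comp_apply, hpq, QuotientGroup.mk'_apply, (QuotientGroup.eq_one_iff τ).mpr hτ,
          map_one]) hs0 hs1
    -- the rest
    set y₂ : MonoidAlgebra ℚ G := y - MonoidAlgebra.single 1 ((l : ℚ)⁻¹) * (CEX_T O * y) with hy2
    have hev : ∀ χ : G →* ℂˣ, evQ χ y₂ = evQ χ y - (l : ℂ)⁻¹ * (evQ χ (CEX_T O) * evQ χ y) := by
      intro χ
      rw [hy2, map_sub, map_mul, map_mul, CEX_ev_single, map_one]
      push_cast
      ring
    obtain ⟨d₂, hd₂, hz₂⟩ := hCOX G m l h g₀ c hG hl hc hc1 hcc y₂ n (by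
        rw [hy2, mul_sub, hy]
        have e1 : MonoidAlgebra.single c (1 : ℚ) * (MonoidAlgebra.single 1 ((l : ℚ)⁻¹) *
            (CEX_T O * y)) = MonoidAlgebra.single 1 ((l : ℚ)⁻¹) * (CEX_T O *
            (MonoidAlgebra.single c (1 : ℚ) * y)) := by ring
        rw [e1, hy]
        ring) (fun χ hχ => by
        by_cases htr : ∀ τ ∈ O, χ τ = 1
        · refine ⟨1, odd_one, ?_⟩
          rw [hev, CEX_T_triv O χ htr, cO]
          have hlc : (l : ℂ) ≠ 0 := by exact_mod_cast hl0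
          have e1 : evQ χ y - (l : ℂ)⁻¹ * ((l : ℂ) * evQ χ y) = 0 := by
            rw [← mul_assoc, inv_mul_cancel₀ hlc, one_mul, sub_self]
          rw [e1, zero_div, mul_zero]
          exact isIntegral_zero
        · push Not at htr
          obtain ⟨τ₀, h0, h1⟩ := htr
          obtain ⟨d, hd, hdi⟩ := hχ2 χ hχ (fun ⟨i, hi⟩ => h1 (CEX_triv hl χ hi τ₀ h0))
          refine ⟨d, hd, ?_⟩
          rw [hev, CEX_T_non O χ τ₀ h0 h1, zero_mul, mul_zero, sub_zero]
          exact hdi)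
    refine ⟨l * d₁ * d₂, (hl.mul hd₁).mul hd₂, fun σ => ?_⟩
    obtain ⟨z₁, hz₁'⟩ := hz₁ (pq σ)
    obtain ⟨z₂, hz₂'⟩ := hz₂ σ
    have hk : 2 ^ k = 2 ^ (k - (m - (h + n))) * (2 : ℚ) ^ (m - (h + n)) := by
      rw [← pow_add]
      congr 1
      have := hl1 hl'
      omega
    have hco : y.coeff σ = (l : ℚ)⁻¹ * yb.coeff (pq σ) + y₂.coeff σ := by
      have e1 : y₂.coeff σ = y.coeff σ - (l : ℚ)⁻¹ * yb.coeff (pq σ) := by
        rw [hy2, MonoidAlgebra.coeff_sub, Finsupp.sub_apply, MonoidAlgebra.coeff_single_one_mul,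
          CEX_T_coeff]
      rw [e1]
      ring
    refine ⟨d₂ * z₁ + l * d₁ * 2 ^ (k - (m - (h + n))) * z₂, ?_⟩
    push_cast
    rw [← hz₁', ← hz₂', hco, hk]
    field_simp

end Pool.Agent.RMX
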