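import Pool.Agent.helper51.RMX.Spec

/-!
# Row rmx:IVX (divisors of `K` on which the norm is multiplication by `q`)
-/

set_option autoImplicit false
set_option linter.unusedSectionVars false

namespace Pool.Agent.RMX

open Pool.Agent.RB NumberField IsDedekindDomain Module
open scoped nonZeroDivisors Real Classical IsMulCommutative

section ram

variable (L : Type) {K : Type} [Field L] [NumberField L] [Field K] [NumberField K] [Algebra L K]

/-- the ramification index of `P` over `L` -/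
noncomputable def IVX_e (P : HOS K) : ℕ := (P.under (𝓞 L)).asIdeal.ramificationIdx' P.asIdeal

theorem IVX_e_pos (P : HOS K) : 0 < IVX_e L P := by
  have hlies : P.asIdeal.LiesOver (P.under (𝓞 L)).asIdeal := ⟨rfl⟩
  exact Nat.pos_of_ne_zero (Ideal.IsDedekindDomain.ramificationIdx'_ne_zero_of_liesOver P.asIdeal
    (P.under (𝓞 L)).ne_bot)

theorem IVX_val (P : HOS K) (x : L) :
    P.valuation K (algebraMap L K x) = (P.under (𝓞 L)).valuation L x ^ IVX_e L P := by
  have hlies : P.asIdeal.LiesOver (P.under (𝓞 L)).asIdeal := ⟨rfl⟩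
  exact (HeightOneSpectrum.valuation_liesOver K (P.under (𝓞 L)) P x).symm

theorem IVX_ord (P : HOS K) (x : L) :
    ord P (algebraMap L K x) = IVX_e L P * ord (P.under (𝓞 L)) x := by
  unfold ord
  rw [IVX_val, WithZero.log_pow]
  simp

theorem IVX_uni (p : HOS L) : ∃ x : L, ord p x ≠ 0 := by
  obtain ⟨x, hx⟩ := p.valuation_exists_uniformizer L
  refine ⟨x, ?_⟩
  unfold ord
  rw [hx]
  simp

theorem IVX_e_act (σ : K ≃ₐ[L] K) (P : HOS K) : IVX_e L (act (σ : K ≃+* K) P) = IVX_e L P := by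
  obtain ⟨x, hx⟩ := IVX_uni L (P.under (𝓞 L))
  have h1 := ((ORD K).2.2.2.2.2.1 (σ : K ≃+* K) P (algebraMap L K x)).2
  have h2 : (σ : K ≃+* K) (algebraMap L K x) = algebraMap L K x := σ.commutes x
  rw [h2, IVX_ord, IVX_ord, SPL_under] at h1
  have h3 := mul_right_cancel₀ hx h1
  exact_mod_cast h3

theorem IVX_fib (p : HOS L) : {P : HOS K | P.under (𝓞 L) = p}.Finite := by
  obtain ⟨x, hx⟩ := IVX_uni L p
  have hx0 : algebraMap L K x ≠ 0 := by
    intro h
    have h1 : x = 0 := (map_eq_zero (algebraMap L K)).mp h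
    rw [h1] at hx
    exact hx (by simp [ord])
  refine ((ORD K).1 (algebraMap L K x) hx0).subset ?_
  intro P hP
  rw [Set.mem_ofPred_eq] at hP ⊢
  rw [IVX_ord, hP]
  have h2 : (IVX_e L P : ℤ) ≠ 0 := by exact_mod_cast (IVX_e_pos L P).ne'
  exact mul_ne_zero h2 hx

theorem IVX_e_dvd [IsGalois L K] (w : HOS K) : IVX_e L w ∣ finrank L K := by
  set p := (w.under (𝓞 L)).asIdeal with hp
  have hp0 : p ≠ ⊥ := (w.under (𝓞 L)).ne_bot
  have : p.IsMaximal := (w.under (𝓞 L)).isMaximal
  have hsum := Ideal.sum_ramification_inertia (𝓞 K) L K hp0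
  have hall : ∀ I ∈ IsDedekindDomain.primesOverFinset p (𝓞 K),
      Ideal.ramificationIdx' p I * Ideal.inertiaDeg' p I = IVX_e L w * Ideal.inertiaDeg' p I := by
    intro I hI
    obtain ⟨h1, h2⟩ := (IsDedekindDomain.mem_primesOverFinset_iff hp0 _).mp hI
    have hI0 : I ≠ ⊥ := by
      rintro rfl
      apply hp0
      rw [h2.over]
      exact Ideal.under_bot (𝓞 L) (𝓞 K)
    set Q : HOS K := ⟨I, h1, hI0⟩ with hQ
    have hQu : Q.under (𝓞 L) = w.under (𝓞 L) := HeightOneSpectrum.ext h2.over.symm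
    obtain ⟨σ, hσ⟩ := SPL_tr L K w Q hQu.symm
    have h3 : IVX_e L Q = IVX_e L w := by rw [← hσ, IVX_e_act]
    have h4 : IVX_e L Q = Ideal.ramificationIdx' p I := by
      unfold IVX_e
      rw [hQu]
    rw [← h4, h3]
  rw [Finset.sum_congr rfl hall, ← Finset.mul_sum] at hsum
  exact ⟨_, hsum.symm⟩

/-- the extension of divisors from `L` to `K` -/
noncomputable def IVX_j : Dv L →+ Dv K where
  toFun E := Finsupp.ofSupportFinite (fun P : HOS K => (IVX_e L P : ℤ) * E (P.under (𝓞 L))) (by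
    refine (E.support.finite_toSet.biUnion fun p _ => IVX_fib (K := K) L p).subset ?_
    intro P hP
    simp only [Set.mem_iUnion]
    refine ⟨P.under (𝓞 L), ?_, rfl⟩
    rw [Finset.mem_coe, Finsupp.mem_support_iff]
    intro h0
    rw [Function.mem_support, h0, mul_zero] at hP
    exact hP rfl)
  map_zero' := by
    ext P
    change (IVX_e L P : ℤ) * 0 = 0
    ring
  map_add' E E' := by
    ext P
    change (IVX_e L P : ℤ) * (E (P.under (𝓞 L)) + E' (P.under (𝓞 L))) =
      (IVX_e L P : ℤ) * E (P.under (𝓞 L)) + (IVX_e L P : ℤ) * E' (P.under (𝓞 L))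
    ring

theorem IVX_j_apply (E : Dv L) (P : HOS K) :
    IVX_j L (K := K) E P = (IVX_e L P : ℤ) * E (P.under (𝓞 L)) := rfl

theorem IVX_j_inj : Function.Injective (IVX_j L (K := K)) := by
  intro E E' h
  ext p
  obtain ⟨P, hP⟩ := (VLU L K).2.1 p
  have h1 := DFunLike.congr_fun h P
  rw [IVX_j_apply, IVX_j_apply, hP] at h1
  have h2 : (IVX_e L P : ℤ) ≠ 0 := by exact_mod_cast (IVX_e_pos L P).ne'
  exact mul_left_cancel₀ h2 h1

end ram

theorem IVX_sym {K : Type} [Field K] [NumberField K] (σ : K ≃+* K) (P : HOS K) :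
    act σ (act σ.symm P) = P := by
  rw [← (ORD K).2.2.2.2.2.2.2.1]
  have h4 : σ.symm.trans σ = RingEquiv.refl K := by
    ext t
    exact σ.apply_symm_apply t
  rw [h4, (ORD K).2.2.2.2.2.2.1]

/-- `dM ≤ DV` -/
theorem IVX_le {K : Type} [Field K] [NumberField K] (c : K ≃+* K) (W T : Set (HOS K)) :
    dM c W T ≤ DV c W := by
  rintro D ⟨x, ⟨h1, h2, -⟩, h3⟩
  refine ⟨fun P hP => by rw [h3, h2 P hP], fun P => ?_⟩
  have h4 := ((ORD K).2.2.2.2.2.1 c P (x : K)).2
  have hx0 : (x : K) ≠ 0 := x.ne_zero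
  have h5 : c (x : K) = (x : K)⁻¹ := by
    refine eq_inv_of_mul_eq_one_left ?_
    rw [mul_comm]
    exact h1
  rw [h5, ord_inv] at h4
  rw [h3, h3, ← h4, neg_neg]

section main

variable {F L K : Type} [Field F] [NumberField F] [Field L] [NumberField L] [Field K]
  [NumberField K] [Algebra F L] [Algebra L K] [Algebra F K] [IsScalarTower F L K]
  [IsAbelianGalois F L] [IsAbelianGalois F K]

theorem IVX_res (σ : K ≃ₐ[F] K) (x : L) :
    (σ : K ≃+* K) (algebraMap L K x) =
      algebraMap L K ((AlgEquiv.restrictNormalHom L σ : L ≃ₐ[F] L) x) :=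
  (AlgEquiv.restrictNormal_commutes σ L x).symm

theorem IVX_e_act' (σ : K ≃ₐ[F] K) (P : HOS K) :
    IVX_e L (act (σ : K ≃+* K) P) = IVX_e L P := by
  obtain ⟨x, hx⟩ := IVX_uni L (P.under (𝓞 L))
  have h1 := ((ORD K).2.2.2.2.2.1 (σ : K ≃+* K) P (algebraMap L K x)).2
  rw [IVX_res, IVX_ord, IVX_ord, ARS F L K σ P] at h1
  have h2 := ((ORD L).2.2.2.2.2.1 ((AlgEquiv.restrictNormalHom L σ : L ≃ₐ[F] L) : L ≃+* L)
    (P.under (𝓞 L)) x).2
  have h3 : ord (act ((AlgEquiv.restrictNormalHom L σ : L ≃ₐ[F] L) : L ≃+* L) (P.under (𝓞 L)))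
      ((AlgEquiv.restrictNormalHom L σ : L ≃ₐ[F] L) x) = ord (P.under (𝓞 L)) x := h2
  rw [h3] at h1
  have h4 := mul_right_cancel₀ hx h1
  exact_mod_cast h4

/-- elements of the kernel do not change the prime of `L` below -/
theorem IVX_ker_under (δ : K ≃ₐ[F] K)
    (hδ : δ ∈ (AlgEquiv.restrictNormalHom L : (K ≃ₐ[F] K) →* (L ≃ₐ[F] L)).ker) (P : HOS K) :
    (act (δ : K ≃+* K) P).under (𝓞 L) = P.under (𝓞 L) := by
  have h1 : (AlgEquiv.restrictNormalHom L δ : L ≃ₐ[F] L) = 1 := hδ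
  rw [ARS F L K δ P, h1]
  exact (ORD L).2.2.2.2.2.2.1 _

theorem IVX_mem_ker (τ : K ≃ₐ[L] K) :
    (τ.restrictScalars F) ∈ (AlgEquiv.restrictNormalHom L : (K ≃ₐ[F] K) →* (L ≃ₐ[F] L)).ker := by
  rw [MonoidHom.mem_ker]
  ext x
  apply (algebraMap L K).injective
  rw [← IVX_res]
  exact τ.commutes x

theorem IVX_card {q : ℕ}
    (h : Nat.card (AlgEquiv.restrictNormalHom L : (K ≃ₐ[F] K) →* (L ≃ₐ[F] L)).ker = q) :
    finrank L K = q := by
  have h1 : Nat.card (AlgEquiv.restrictNormalHom L : (K ≃ₐ[F] K) →* (L ≃ₐ[F] L)).ker *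
      Nat.card (AlgEquiv.restrictNormalHom L : (K ≃ₐ[F] K) →* (L ≃ₐ[F] L)).range =
      Nat.card (K ≃ₐ[F] K) := by
    rw [← Subgroup.index_ker]
    exact Subgroup.card_mul_index _
  have h2 : (AlgEquiv.restrictNormalHom L : (K ≃ₐ[F] K) →* (L ≃ₐ[F] L)).range = ⊤ :=
    MonoidHom.range_eq_top.mpr (AlgEquiv.restrictNormalHom_surjective (F := F) (K₁ := L) K)
  rw [h, h2, Subgroup.card_top, IsGalois.card_aut_eq_finrank, IsGalois.card_aut_eq_finrank,
    ← finrank_mul_finrank F L K, mul_comm] at h1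
  exact (Nat.eq_of_mul_eq_mul_left finrank_pos h1).symm

/-- units of absolute value 1 -/
theorem IVX_tors [IsCMField K] (c : K ≃ₐ[F] K) (hc : ∀ x : K, c x = IsCMField.complexConj K x)
    (x : K) (hx : x * c x = 1) (ho : ∀ P : HOS K, ord P x = 0) :
    ∃ ζ ∈ Units.torsion K, ((ζ : (𝓞 K)ˣ) : K) = x := by
  have hx0 : x ≠ 0 := by
    rintro rfl
    rw [zero_mul] at hx
    exact zero_ne_one hx
  obtain ⟨u, hu⟩ := (ORD K).2.2.2.1 x hx0 ho
  refine ⟨u, ?_, hu⟩
  rw [Units.mem_torsion]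
  intro w
  have h1 : w.embedding (x * c x) = ((‖w.embedding x‖ ^ 2 : ℝ) : ℂ) := by
    rw [map_mul, hc, IsCMField.complexEmbedding_complexConj, Complex.mul_conj,
      Complex.normSq_eq_norm_sq]
  rw [hx, map_one] at h1
  have h2 : ‖w.embedding x‖ ^ 2 = 1 := by exact_mod_cast h1.symm
  have h3 : ‖w.embedding x‖ = 1 := by
    have h4 := norm_nonneg (w.embedding x)
    nlinarith
  rw [hu, ← InfinitePlace.norm_embedding_eq w x]
  exact h3

end main

/-- the index is a power of `q` -/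
theorem IVX_pow {A : Type} [AddCommGroup A] (H B : AddSubgroup A) (q : ℕ) (hq : q.Prime)
    (h : ∀ b ∈ B, q • b ∈ H) (h0 : H.relIndex B ≠ 0) : ∃ e : ℕ, H.relIndex B = q ^ e := by
  have : Finite (B ⧸ H.addSubgroupOf B) := by
    apply Nat.finite_of_card_ne_zero
    exact h0
  refine ⟨_, Nat.eq_prime_pow_of_unique_prime_dvd h0 fun {r} hr hd => ?_⟩
  have : Fact r.Prime := ⟨hr⟩
  have : Fintype (B ⧸ H.addSubgroupOf B) := Fintype.ofFinite _
  obtain ⟨x, hx⟩ := exists_prime_addOrderOf_dvd_card (G := B ⧸ H.addSubgroupOf B) r (by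
    rw [← Nat.card_eq_fintype_card]
    exact hd)
  have h1 : q • x = 0 := by
    obtain ⟨b, rfl⟩ := QuotientAddGroup.mk_surjective x
    rw [← QuotientAddGroup.mk_nsmul, QuotientAddGroup.eq_zero_iff]
    exact h b b.2
  have h2 := addOrderOf_dvd_of_nsmul_eq_zero h1
  rw [hx] at h2
  exact (Nat.prime_dvd_prime_iff_eq hr hq).mp h2

/-- a divisor invariant under `Δ` -/
theorem IVX_N1 (hNDV : NDV_stmt) {F K : Type} [Field F] [NumberField F] [Field K] [NumberField K]
    [Algebra F K] [IsAbelianGalois F K] (Δ : Subgroup (K ≃ₐ[F] K)) (D : Dv K)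
    (h : ∀ δ ∈ Δ, ∀ P : HOS K, D (act (δ : K ≃+* K) P) = D P) : Nd Δ D = Nat.card Δ • D := by
  obtain ⟨hN, -⟩ := hNDV F K Δ
  ext P
  have e1 : ∀ δ : Δ, D (act ((δ : K ≃ₐ[F] K) : K ≃+* K) P) = D P := fun δ => h δ δ.2 P
  rw [hN, Finset.sum_congr rfl fun δ _ => e1 δ, Finset.sum_const, Finsupp.smul_apply,
    Finset.card_univ, ← Nat.card_eq_fintype_card]

/-- a divisor on which the norm is multiplication by `q ≠ 0` is invariant -/
theorem IVX_N2 (hNDV : NDV_stmt) {F K : Type} [Field F] [NumberField F] [Field K] [NumberField K]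
    [Algebra F K] [IsAbelianGalois F K] (Δ : Subgroup (K ≃ₐ[F] K)) (D : Dv K) (q : ℕ)
    (hq0 : (q : ℤ) ≠ 0) (hD2 : Nd Δ D = q • D) :
    ∀ δ ∈ Δ, ∀ P : HOS K, D (act (δ : K ≃+* K) P) = D P := by
  obtain ⟨hN, -⟩ := hNDV F K Δ
  intro δ hδ P
  have e1 : (q : ℤ) * D (act (δ : K ≃+* K) P) = (q : ℤ) * D P := by
    have a1 : (q : ℤ) * D (act (δ : K ≃+* K) P) = Nd Δ D (act (δ : K ≃+* K) P) := by
      rw [hD2, Finsupp.smul_apply, nsmul_eq_mul]
    have a2 : (q : ℤ) * D P = Nd Δ D P := by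
      rw [hD2, Finsupp.smul_apply, nsmul_eq_mul]
    rw [a1, a2, hN, hN]
    refine Fintype.sum_equiv (Equiv.mulRight (⟨δ, hδ⟩ : Δ)) _ _ fun τ => ?_
    have a3 : act ((((Equiv.mulRight (⟨δ, hδ⟩ : Δ)) τ : Δ) : K ≃ₐ[F] K) : K ≃+* K) P =
        act ((τ : K ≃ₐ[F] K) : K ≃+* K) (act (δ : K ≃+* K) P) := by
      rw [← (ORD K).2.2.2.2.2.2.2.1]
      rfl
    rw [a3]
  exact mul_left_cancel₀ hq0 e1

/-- ROW rmx:IVX -/
theorem IVX (hNDV : NDV_stmt) : IVX_stmt := by
  intro F L K _ _ _ _ _ _ _ _ _ _ _ _ _ _ c hc q hq hcard T htor hne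
  set Δ := (AlgEquiv.restrictNormalHom L : (K ≃ₐ[F] K) →* (L ≃ₐ[F] L)).ker with hΔ
  set c' : L ≃ₐ[F] L := AlgEquiv.restrictNormalHom L c with hc'
  set V : Set (HOS K) := {P : HOS K | P.under (𝓞 F) ∉ T} with hV
  set T₁ : Set (HOS K) := {P : HOS K | P.under (𝓞 F) ∈ T} with hT₁
  set V' : Set (HOS L) := {P : HOS L | P.under (𝓞 F) ∉ T} with hV'
  set T' : Set (HOS L) := {P : HOS L | P.under (𝓞 F) ∈ T} with hT'
  have : IsGalois L K := IsGalois.tower_top_of_isGalois F L K
  have hfin : finrank L K = q := IVX_card hcard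
  have hq0 : (q : ℤ) ≠ 0 := by exact_mod_cast hq.ne_zero
  have hun : ∀ P : HOS K, (P.under (𝓞 L)).under (𝓞 F) = P.under (𝓞 F) := fun P =>
    (VLU L K).2.2.2 F P
  -- the action of `c` and the primes below
  have hcu : ∀ P : HOS K, (act (c : K ≃+* K) P).under (𝓞 L) = act (c' : L ≃+* L) (P.under (𝓞 L)) :=
    fun P => ARS F L K c P
  set A : AddSubgroup (Dv K) := DV (c : K ≃+* K) V ⊓ (Nd Δ - q • AddMonoidHom.id (Dv K)).ker with hA
  have hmemA : ∀ D : Dv K, D ∈ A ↔ D ∈ DV (c : K ≃+* K) V ∧ Nd Δ D = q • D := by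
    intro D
    rw [hA, AddSubgroup.mem_inf, AddMonoidHom.mem_ker, AddMonoidHom.sub_apply, sub_eq_zero]
    exact Iff.rfl
  -- (1)
  have h1 : (DV (c' : L ≃+* L) V').map (IVX_j L (K := K)) ≤ A := by
    rintro _ ⟨E, ⟨hE1, hE2⟩, rfl⟩
    rw [hmemA]
    refine ⟨⟨fun P hP => ?_, fun P => ?_⟩, ?_⟩
    · rw [IVX_j_apply, hE1, mul_zero]
      intro h
      apply hP
      rw [hV, Set.mem_ofPred_eq, ← hun P]
      exact h
    · rw [IVX_j_apply, IVX_j_apply, IVX_e_act', hcu, hE2, mul_neg]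
    · rw [IVX_N1 hNDV Δ (IVX_j L (K := K) E) fun δ hδ P => by
        rw [IVX_j_apply, IVX_j_apply, IVX_e_act', IVX_ker_under _ hδ], hcard]
  -- invariance
  have hinv : ∀ D ∈ A, ∀ δ ∈ Δ, ∀ P : HOS K, D (act (δ : K ≃+* K) P) = D P := by
    intro D hD
    exact IVX_N2 hNDV Δ D q hq0 ((hmemA D).mp hD).2
  have hfibre : ∀ D ∈ A, ∀ P Q : HOS K, P.under (𝓞 L) = Q.under (𝓞 L) → D P = D Q := by
    intro D hD P Q hPQ
    obtain ⟨τ, hτ⟩ := SPL_tr L K P Q hPQ
    have e1 := hinv D hD (τ.restrictScalars F) (IVX_mem_ker τ) P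
    rw [← e1, ← hτ]
    rfl
  -- (2)
  have h2 : ∀ D ∈ A, q • D ∈ (DV (c' : L ≃+* L) V').map (IVX_j L (K := K)) := by
    intro D hD
    obtain ⟨⟨hD1, hD3⟩, hD2⟩ := (hmemA D).mp hD
    choose s hs using (VLU L K).2.1
    have hsinj : Function.Injective s := fun a b hab => by rw [← hs a, ← hs b, hab]
    set E : Dv L := Finsupp.ofSupportFinite
      (fun p : HOS L => ((q / IVX_e L (s p) : ℕ) : ℤ) * D (s p)) (by
        refine (D.support.finite_toSet.preimage (hsinj.injOn (s := s ⁻¹' (D.support : Set _)))).subset ?_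
        intro p hp
        rw [Set.mem_preimage, Finset.mem_coe, Finsupp.mem_support_iff]
        intro h0
        rw [Function.mem_support, h0, mul_zero] at hp
        exact hp rfl) with hE
    have hEa : ∀ p, E p = ((q / IVX_e L (s p) : ℕ) : ℤ) * D (s p) := fun p => rfl
    have hdvd : ∀ P : HOS K, (IVX_e L P : ℤ) * ((q / IVX_e L P : ℕ) : ℤ) = q := by
      intro P
      have := IVX_e_dvd L P
      rw [hfin] at this
      exact_mod_cast Nat.mul_div_cancel' this
    have hjE : IVX_j L (K := K) E = q • D := by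
      ext P
      rw [IVX_j_apply, hEa, Finsupp.smul_apply, nsmul_eq_mul]
      obtain ⟨τ, hτ⟩ := SPL_tr L K P (s (P.under (𝓞 L))) (hs _).symm
      have e1 : IVX_e L (s (P.under (𝓞 L))) = IVX_e L P := by rw [← hτ, IVX_e_act]
      rw [e1, hfibre D hD (s (P.under (𝓞 L))) P (hs _), ← mul_assoc, hdvd]
    refine ⟨E, ⟨fun p hp => ?_, fun p => ?_⟩, hjE⟩
    · rw [hEa, hD1, mul_zero]
      intro h
      apply hp
      rw [hV, Set.mem_ofPred_eq, ← hun, hs] at h
      exact h
    · obtain ⟨P, rfl⟩ := (VLU L K).2.1 p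
      have e1 := DFunLike.congr_fun hjE P
      have e2 := DFunLike.congr_fun hjE (act (c : K ≃+* K) P)
      rw [IVX_j_apply] at e1 e2
      rw [IVX_e_act', hcu] at e2
      have e3 : (q • D) (act (c : K ≃+* K) P) = - (q • D) P := by
        rw [Finsupp.smul_apply, Finsupp.smul_apply, hD3, smul_neg]
      rw [e3, ← e1, ← mul_neg] at e2
      have h5 : (IVX_e L P : ℤ) ≠ 0 := by exact_mod_cast (IVX_e_pos L P).ne'
      exact mul_left_cancel₀ h5 e2
  -- (3)
  have h3 : dM (c : K ≃+* K) V T₁ ⊓ A = (dM (c' : L ≃+* L) V' T').map (IVX_j L (K := K)) := by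
    apply le_antisymm
    · rintro D ⟨⟨x, ⟨hx1, hx2, hx3⟩, hx4⟩, hDA⟩
      have hcomm : ∀ (δ : K ≃ₐ[F] K) (z : K), c (δ z) = δ (c z) := by
        intro δ z
        change (c * δ) z = (δ * c) z
        rw [mul_comm]
      have hx0 : (x : K) ≠ 0 := x.ne_zero
      have hfix : ∀ δ ∈ Δ, δ (x : K) = x := by
        intro δ hδ
        have hδx0 : δ (x : K) ≠ 0 := (map_ne_zero δ).mpr hx0
        have y1 : δ (x : K) / x * c (δ (x : K) / x) = 1 := by
          rw [map_div₀, hcomm]
          have a1 : (x : K) * c (x : K) = 1 := hx1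
          have a2 : δ (x : K) * δ (c (x : K)) = 1 := by rw [← map_mul, a1, map_one]
          rw [div_mul_div_comm, a1, a2, div_one]
        have hval : ∀ (P : HOS K) (z : K), P.valuation K (δ z) =
            (act ((δ : K ≃+* K)).symm P).valuation K z := by
          intro P z
          have a1 := ((ORD K).2.2.2.2.2.1 (δ : K ≃+* K) (act ((δ : K ≃+* K)).symm P) z).1
          rw [IVX_sym] at a1
          exact a1
        have hord : ∀ (P : HOS K) (z : K), ord P (δ z) = ord (act ((δ : K ≃+* K)).symm P) z := by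
          intro P z
          have a1 := ((ORD K).2.2.2.2.2.1 (δ : K ≃+* K) (act ((δ : K ≃+* K)).symm P) z).2
          rw [IVX_sym] at a1
          exact a1
        have hunF : ∀ P : HOS K, (act ((δ : K ≃+* K)).symm P).under (𝓞 F) = P.under (𝓞 F) :=
          fun P => SPL_under F K δ.symm P
        have y2 : ∀ P : HOS K, ord P (δ (x : K) / x) = 0 := by
          intro P
          have a3 : ord P (δ (x : K)) = ord P (x : K) := by
            rw [hord, ← hx4, ← hx4]
            exact hinv D hDA δ.symm (inv_mem hδ) P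
          rw [div_eq_mul_inv, ord_mul P hδx0 (inv_ne_zero hx0), ord_inv, a3]
          ring
        obtain ⟨ζ, hζ1, hζ2⟩ := IVX_tors c hc _ y1 y2
        have hζ3 : ζ = 1 := by
          refine htor ζ hζ1 fun P hP => ?_
          rw [hζ2]
          have v1 : P.valuation K ((x : K) - 1) < 1 := hx3 P hP
          have v2 : P.valuation K (δ (x : K) - 1) < 1 := by
            have a1 : δ (x : K) - 1 = δ ((x : K) - 1) := by rw [map_sub, map_one]
            rw [a1, hval]
            refine hx3 _ ?_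
            rw [hT₁, Set.mem_ofPred_eq, hunF]
            exact hP
          have v3 : P.valuation K (x : K) = 1 := by
            have hle : P.valuation K (x : K) ≤ 1 := by
              have a1 : (x : K) = ((x : K) - 1) + 1 := by ring
              rw [a1]
              exact (Valuation.map_add _ _ _).trans (max_le v1.le (by simp))
            by_contra hlt
            have hlt' : P.valuation K (x : K) < 1 := lt_of_le_of_ne hle hlt
            have a2 : P.valuation K (1 : K) < 1 := by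
              have a3 : (1 : K) = (x : K) - ((x : K) - 1) := by ring
              rw [a3]
              exact (Valuation.map_sub _ _ _).trans_lt (max_lt hlt' v1)
            rw [map_one] at a2
            exact lt_irrefl _ a2
          have a4 : δ (x : K) / x - 1 = ((δ (x : K) - 1) - ((x : K) - 1)) * (x : K)⁻¹ := by
            field_simp
            ring
          rw [a4, map_mul, map_inv₀, v3, inv_one, mul_one]
          exact (Valuation.map_sub _ _ _).trans_lt (max_lt v2 v1)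
        rw [hζ3] at hζ2
        have a5 : δ (x : K) / x = 1 := by
          rw [← hζ2]
          rfl
        rw [div_eq_one_iff_eq hx0] at a5
        exact a5
      -- `x` comes from `L`
      obtain ⟨y, hy⟩ : (x : K) ∈ Set.range (algebraMap L K) := by
        rw [IsGalois.mem_range_algebraMap_iff_fixed]
        intro τ
        exact hfix (τ.restrictScalars F) (IVX_mem_ker τ)
      have hy0 : y ≠ 0 := by
        rintro rfl
        rw [map_zero] at hy
        exact hx0 hy.symm
      have hfinE := (ORD L).1 y hy0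
      set E : Dv L := Finsupp.ofSupportFinite (fun p : HOS L => ord p y) hfinE with hE
      have hEa : ∀ p, E p = ord p y := fun p => rfl
      refine ⟨E, ⟨Units.mk0 y hy0, ⟨?_, ?_, ?_⟩, fun p => rfl⟩, ?_⟩
      · apply (algebraMap L K).injective
        rw [map_mul, map_one]
        change algebraMap L K y * algebraMap L K (c' y) = 1
        have a1 := IVX_res (L := L) c y
        rw [← a1, hy]
        exact hx1
      · intro p hp
        obtain ⟨P, rfl⟩ := (VLU L K).2.1 p
        have a1 : ord P (algebraMap L K y) = 0 := by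
          rw [hy]
          apply hx2
          intro h
          apply hp
          rw [hV', Set.mem_ofPred_eq, hun]
          exact h
        rw [IVX_ord] at a1
        have h5 : (IVX_e L P : ℤ) ≠ 0 := by exact_mod_cast (IVX_e_pos L P).ne'
        exact (mul_eq_zero.mp a1).resolve_left h5
      · intro p hp
        obtain ⟨P, rfl⟩ := (VLU L K).2.1 p
        obtain ⟨e, -, he⟩ := (VLU L K).1 P
        have a1 := (he (y - 1)).2.2.1
        change (P.under (𝓞 L)).valuation L (y - 1) < 1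
        rw [← a1, map_sub, map_one, hy]
        apply hx3
        rw [hT', Set.mem_ofPred_eq, hun] at hp
        exact hp
      · ext P
        rw [IVX_j_apply, hEa, ← IVX_ord, hy]
        exact (hx4 P).symm
    · rintro _ ⟨E, hE, rfl⟩
      refine ⟨?_, h1 ⟨E, IVX_le _ _ _ hE, rfl⟩⟩
      obtain ⟨x, ⟨hx1, hx2, hx3⟩, hx4⟩ := hE
      have hx0 : algebraMap L K (x : L) ≠ 0 := (map_ne_zero _).mpr x.ne_zero
      refine ⟨Units.mk0 _ hx0, ⟨?_, ?_, ?_⟩, ?_⟩
      · change algebraMap L K (x : L) * (c : K ≃+* K) (algebraMap L K (x : L)) = 1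
        rw [IVX_res, ← map_mul]
        have a1 : (x : L) * c' (x : L) = 1 := hx1
        rw [a1, map_one]
      · intro P hP
        change ord P (algebraMap L K (x : L)) = 0
        rw [IVX_ord, hx2, mul_zero]
        intro h
        apply hP
        rw [hV, Set.mem_ofPred_eq, ← hun P]
        exact h
      · intro P hP
        obtain ⟨e, -, he⟩ := (VLU L K).1 P
        have a1 := (he ((x : L) - 1)).2.2.1
        rw [map_sub, map_one] at a1
        refine a1.mpr (hx3 _ ?_)
        rw [hT', Set.mem_ofPred_eq, hun]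
        exact hP
      · intro P
        rw [IVX_j_apply, hx4]
        exact (IVX_ord L P (x : L)).symm
  -- the indices
  have i1 : (dM (c : K ≃+* K) V T₁).relIndex A =
      ((dM (c' : L ≃+* L) V' T').map (IVX_j L (K := K))).relIndex A := by
    rw [← AddSubgroup.inf_relIndex_right, h3]
  have i2 : ((dM (c' : L ≃+* L) V' T').map (IVX_j L (K := K))).relIndex
      ((DV (c' : L ≃+* L) V').map (IVX_j L (K := K))) =
      (dM (c' : L ≃+* L) V' T').relIndex (DV (c' : L ≃+* L) V') :=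
    AddSubgroup.relIndex_map_map_of_injective _ _ (IVX_j_inj L)
  have i3 := AddSubgroup.relIndex_mul_relIndex ((dM (c' : L ≃+* L) V' T').map (IVX_j L (K := K)))
      ((DV (c' : L ≃+* L) V').map (IVX_j L (K := K))) A
      (AddSubgroup.map_mono (IVX_le _ _ _)) h1
  rw [i2, ← i1] at i3
  have i4 : ((DV (c' : L ≃+* L) V').map (IVX_j L (K := K))).relIndex A ≠ 0 := by
    intro h0
    rw [h0, mul_zero] at i3
    exact hne i3.symm
  obtain ⟨e, he⟩ := IVX_pow _ A q hq h2 i4
  refine ⟨e, ?_⟩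
  rw [← i3, he, mul_comm]

end Pool.Agent.RMX
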